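import Pool.Agent.X275.MD.MD4
import Pool.Agent.X31.S7

/-!
# The assertion without exceptions, for almost all moduli `q ≥ x / (log x) ^ B` near the values of generalised polynomials

`f(t) = ∑ u_x t ^ x` is an arbitrary finite real combination of real powers of `t` with a positive largest exponent `c`
(for instance `t ^ {3/2}`, `√2 t ^ 3 + t`, `t ^ {1/10}`). The values considered are `b₀ + θ f(n)`, `n ≤ Y`, with arbitrary
real `b₀` and `θ` for which these values are of size `N` (for instance `θ = N / Y ^ c`).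
For almost all elements `n` of an ARBITRARY dense set `M ⊆ {1, ..., Y}`, ALL moduli `q` within `log ^ D N` of the value at `n`
satisfy: EVERY even multiple `n' ≤ q (log q) ^ B` of `q` is a sum of two distinct primes and `g n'` satisfies the formula of
Hardy and Littlewood. So the assertion of the problem holds for `q` and ALL `x ≤ q (log q) ^ B`, without any exceptional
multiples, as the problem demands for `q > x / 8`.

Method: for almost all members of a family of small additive energy the formula of Hardy and Littlewood holds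
(`Pool.Agent.W93.GB.fam`, starting files); this is applied to all the families of the multiples `m q`, `m ≤ (log q) ^ B`
(`Pool.Agent.X275.MD`). The minimal real additive energy of generalised polynomials is from `Pool.Agent.X31` (in this run).
-/

set_option autoImplicit false

namespace Pool.Agent.Results.MP_92f640_nt.GeneralisedPolynomialModuli

open Finset
open Pool.Agent.X275.MD (Holds)

/-- the generalised polynomial with the exponents `x ∈ F` and the coefficients `u x` -/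
noncomputable def f (F : Finset ℝ) (u : ℝ → ℝ) (t : ℝ) : ℝ := ∑ x ∈ F, u x * t ^ x

/-- `M` is a subset of `{1, ..., Y}` with at least `Y / log ^ D N` elements, `Y ≤ N ^ D`; the number `θ` is at most
`log ^ D N` and at least `N / (Y ^ c log ^ D N)` in absolute value, and `|b₀ + θ f(n)| ≤ N` for all `n ∈ M`. -/
def Fam (F : Finset ℝ) (u : ℝ → ℝ) (c : ℝ) (D N Y : ℕ) (θ b₀ : ℝ) (M : Finset ℕ) : Prop :=
  (Y : ℝ) ≤ (N : ℝ) ^ D ∧ |θ| ≤ Real.log N ^ D ∧ (N : ℝ) / Real.log N ^ D ≤ |θ| * (Y : ℝ) ^ c ∧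
  M ⊆ Icc 1 Y ∧ (Y : ℝ) / Real.log N ^ D ≤ M.card ∧ ∀ n ∈ M, |b₀ + θ * f F u n| ≤ N

lemma dat_of {F : Finset ℝ} {u : ℝ → ℝ} {c : ℝ} {D N Y : ℕ} {θ b₀ : ℝ} {M : Finset ℕ}
    (h : Fam F u c D N Y θ b₀ M) : Pool.Agent.X31.DatG c D N Y θ b₀ (fun n => Pool.Agent.X31.gp F u n) M :=
  ⟨h.1, h.2.1, h.2.2.1, h.2.2.2.1, h.2.2.2.2.1, h.2.2.2.2.2⟩

/-- Let `F` be a finite set of real numbers with the maximum `c > 0`, `u c ≠ 0`, and
`f(t) = ∑_{x ∈ F} u x * t ^ x`. Let `D`, `U`, `B` be natural numbers and `ε > 0`. For all sufficiently large `N`, all `Y`, all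
real `θ`, `b₀` and all sets `M` with `Fam F u c D N Y θ b₀ M`: for all but at most `#M / log ^ U N` elements `n` of `M`, ALL
integers `q ≥ 1` with `|q - (b₀ + θ * f F u n)| ≤ log ^ D N` satisfy `Holds ε B q`. -/
theorem result (F : Finset ℝ) (u : ℝ → ℝ) (c : ℝ) (hcF : c ∈ F) (hmax : ∀ x ∈ F, x ≤ c)
    (huc : u c ≠ 0) (hc : 0 < c) (D U B : ℕ) (ε : ℝ) (hε : 0 < ε) :
    ∃ N₀ : ℕ, ∀ N : ℕ, N₀ ≤ N → ∀ (Y : ℕ) (θ b₀ : ℝ) (M : Finset ℕ), Fam F u c D N Y θ b₀ M →
      ∃ E : Finset ℕ, (E.card : ℝ) ≤ M.card / Real.log N ^ U ∧ ∀ n ∈ M, n ∉ E →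
        ∀ q : ℕ, 1 ≤ q → |(q : ℝ) - (b₀ + θ * f F u n)| ≤ Real.log N ^ D → Holds ε B q := by
  classical
  obtain ⟨N₀, h0⟩ := (Pool.Agent.X31.Sch_gp F u c hcF hmax huc hc).single D U _
    (fun h' hh' => Pool.Agent.X275.MD.famO_holds h' hh' ε hε B)
  obtain ⟨N₁, h1⟩ := Pool.Agent.X275.MD.log_pow_le D
  refine ⟨N₀ + N₁, fun N hN Y θ b₀ M hfam => ?_⟩
  obtain ⟨E, hE1, hE2⟩ := h0 N (by omega) M _ ⟨Y, θ, b₀, dat_of hfam, fun _ => rfl⟩
  refine ⟨E, hE1, fun n hn hnE q hq hqs => ?_⟩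
  have hlog := h1 N (by omega)
  have hb := (abs_le.1 (hfam.2.2.2.2.2 n hn)).2
  have hq2 : (q : ℝ) ≤ 2 * N := by
    have := (abs_le.1 hqs).2
    linarith
  have h2 := hE2 n hn hnE (q : ℤ) (by push_cast; exact hqs) (by exact_mod_cast hq) (by exact_mod_cast hq2)
  rwa [Int.toNat_natCast] at h2

end Pool.Agent.Results.MP_92f640_nt.GeneralisedPolynomialModuli
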