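import Pool.Agent.X275.MD.MD2
import Pool.Agent.W93.GB4
import Pool.Agent.W93.GB1

/-!
# Goldbach representations of the multiples of `q`, for moduli `q` with missing digits: all residue classes at once

The moduli are the integers `q = c₀ + k`, where `k` runs through the integers with `M` digits in base `b` whose digit at
`b ^ j` lies in a set `𝒟 j`; these sets are arbitrary with at least TWO elements, so that there may be as few as `2 ^ M`
moduli (for instance: the moduli with the decimal digits `0` and `1` only, or `10 ^ M` plus these). Their size is anything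
between `x ^ η` and `x ^ (1 - η)`. All but a proportion `(log x) ^ (-A)` of these moduli satisfy the assertion
of the problem, and more: in EVERY residue class `a` modulo `q`, for all but at most `x / (q (log x) ^ A)` of the even
numbers `n ≤ x` of the class, `n` is a sum of two distinct primes and the formula of Hardy and Littlewood holds for `g n`.

The starting results on this problem treat the moduli up to `x ^ (2 / 3 - ρ)`, and almost all moduli beyond; they say nothing
about thin sets of moduli beyond `x ^ (2 / 3)`, and nothing about the other residue classes.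

Method: for almost all members of a family of small additive energy the formula of Hardy and Littlewood holds
(`Pool.Agent.W93.GB.fam`, starting files). The energy of the family `k y + g(k) + h(y)` is minimal for ARBITRARY functions `g`,
`h`, if `k` has missing digits (`Pool.Agent.X31.M1` - `M3`, in this run); we use it with `g(k) = ` the worst residue class
modulo `c₀ + k`, and `h(y) = c₀ y` (`Pool.Agent.X275.MD`).
-/

set_option autoImplicit false

namespace Pool.Agent.Results.MP_92f640_nt.MissingDigitModuli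

open Finset
open Pool.Agent.H560R3.GB (g HL)

/-- the integers `0 ≤ n < b ^ M` whose digit at `b ^ j` in base `b` is in `𝒟 j`, for all `j < M` -/
def Digits (b : ℕ) (𝒟 : ℕ → Finset ℕ) (M : ℕ) : Finset ℕ :=
  (range (b ^ M)).filter (fun n => ∀ j < M, n / b ^ j % b ∈ 𝒟 j)

/-- The even numbers `0 < n ≤ x` congruent to `a` modulo `q` for which the formula of Hardy and Littlewood does not
hold with a relative error of at most `ε`, or which are not sums of two distinct primes. -/
def exceptional (ε x : ℝ) (q a : ℕ) : Set ℕ :=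
  {n : ℕ | 0 < n ∧ (n : ℝ) ≤ x ∧ 2 ∣ n ∧ n ≡ a [MOD q] ∧
    ¬ (|(g n : ℝ) - HL n| ≤ ε * HL n ∧ ∃ p p' : ℕ, p.Prime ∧ p'.Prime ∧ p ≠ p' ∧ p + p' = n)}

/-- The even multiples `n` of `q` with `x / 2 < n ≤ x` and `g n < δ n / (log n)²`, as in the problem. -/
def few (δ x : ℝ) (q : ℕ) : Set ℕ :=
  {n : ℕ | x / 2 < n ∧ (n : ℝ) ≤ x ∧ 2 ∣ n ∧ q ∣ n ∧ (g n : ℝ) < δ * (n / Real.log n ^ 2)}

/-- `q` is regular if (1) in EVERY residue class `a` modulo `q`, all but at most `x / (q (log x) ^ A)` of the even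
`n ≤ x` are sums of two distinct primes and satisfy `|g n - HL n| ≤ ε HL n`, and (2) all but at most `x / (8 q)` of the even
multiples `n` of `q` in `(x / 2, x]` satisfy `g n ≥ n / (2 (log n)²)`, which is the assertion of the problem for `q`,
with `δ = 1 / 2`. -/
def Regular (ε : ℝ) (A : ℕ) (x : ℝ) (q : ℕ) : Prop :=
  (∀ a : ℕ, (exceptional ε x q a).Finite ∧ ((exceptional ε x q a).ncard : ℝ) ≤ x / (q * Real.log x ^ A)) ∧
  ((few (1 / 2) x q).Finite ∧ ((few (1 / 2) x q).ncard : ℝ) ≤ x / (8 * q))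

theorem HL_nonneg (n : ℕ) : 0 ≤ HL n := by
  have h2 := Pool.Agent.W93.GB.one_le_sing n
  unfold Pool.Agent.H560R3.GB.HL
  positivity

lemma exceptional_finite (ε x : ℝ) (q a : ℕ) : (exceptional ε x q a).Finite := by
  refine (Set.finite_le_nat ⌊x⌋₊).subset fun n hn => Nat.le_floor hn.2.1

lemma exceptional_mono {ε ε' x : ℝ} (h : ε' ≤ ε) (q a : ℕ) : exceptional ε x q a ⊆ exceptional ε' x q a := by
  rintro n ⟨h1, h2, h3, h4, h5⟩
  refine ⟨h1, h2, h3, h4, fun h6 => h5 ⟨h6.1.trans ?_, h6.2⟩⟩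
  exact mul_le_mul_of_nonneg_right h (HL_nonneg n)

lemma mem_badc {R : ℕ → ℤ → Prop} {N q a n : ℕ} : n ∈ Pool.Agent.X275.MD.badc R N q a ↔
    n ∈ Icc 1 N ∧ n ≡ a [MOD q] ∧ ¬ R N n := by
  classical
  unfold Pool.Agent.X275.MD.badc
  rw [mem_filter]

lemma exceptional_card (ε x : ℝ) (q a : ℕ) : ((exceptional ε x q a).ncard : ℝ) ≤
    (Pool.Agent.X275.MD.badc (fun _ s => 0 < s → Even s → Pool.Agent.W93.GB.Good ε s.toNat) ⌊x⌋₊ q a).card := by
  apply Nat.cast_le.2
  rw [← Set.ncard_coe_finset]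
  apply Set.ncard_le_ncard _ (Finset.finite_toSet _)
  rintro n ⟨h1, h2, h3, h4, h5⟩
  apply mem_coe.2
  apply mem_badc.2
  refine ⟨mem_Icc.2 ⟨h1, Nat.le_floor h2⟩, h4, fun h6 => h5 ?_⟩
  have h7 := h6 (by exact_mod_cast h1) ((Int.even_coe_nat n).2 (even_iff_two_dvd.2 h3))
  rwa [Int.toNat_natCast] at h7

open Classical in
/-- Let `b ≥ 2`, `η > 0`, `ε > 0` and `A` be given. For all sufficiently large real `x`, for every number `M` of digits with
`x ^ η ≤ b ^ M ≤ x ^ (1 - η)`, ALL sets `𝒟 j ⊆ {0, ..., b - 1}` of allowed digits with at least two elements and every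
integer `0 ≤ c₀ ≤ b ^ M (log x) ^ A`: all but at most `#(Digits b 𝒟 M) / (log x) ^ A` of the moduli `q = c₀ + k ≥ 1`,
`k ∈ Digits b 𝒟 M`, are regular. -/
theorem result (b : ℕ) (hb : 2 ≤ b) (η ε : ℝ) (hη : 0 < η) (hε : 0 < ε) (A : ℕ) :
    ∃ x₀ : ℝ, ∀ x : ℝ, x₀ ≤ x → ∀ (M c₀ : ℕ) (𝒟 : ℕ → Finset ℕ), (∀ j, 𝒟 j ⊆ range b ∧ 2 ≤ (𝒟 j).card) →
      x ^ η ≤ (b : ℝ) ^ M → (b : ℝ) ^ M ≤ x ^ (1 - η) → (c₀ : ℝ) ≤ (b : ℝ) ^ M * Real.log x ^ A →
      (((Digits b 𝒟 M).filter (fun k => 1 ≤ c₀ + k ∧ ¬ Regular ε A x (c₀ + k))).card : ℝ) ≤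
        (Digits b 𝒟 M).card / Real.log x ^ A := by
  obtain ⟨ε', hε'⟩ : ∃ ε', ε' = min ε (1 / 2) := ⟨_, rfl⟩
  have hε0 : 0 < ε' := by rw [hε']; exact lt_min hε (by norm_num)
  have hεle : ε' ≤ ε := by rw [hε']; exact min_le_left _ _
  have hεh : ε' ≤ 1 / 2 := by rw [hε']; exact min_le_right _ _
  obtain ⟨N₀, h0⟩ := Pool.Agent.X275.MD.moduli hb (η / 2) (half_pos hη)
    (fun _ s => 0 < s → Even s → Pool.Agent.W93.GB.Good ε' s.toNat)
    (fun lam hlam => Pool.Agent.X275.MD.alm_even (Pool.Agent.X31.Sch_bil hb le_rfl lam hlam)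
      (fun h hh B C U => Pool.Agent.W93.GB.fam h B C U hh ε' hε0)) (A + 2)
  obtain ⟨x₁, hx₁⟩ : ∃ x₁ : ℝ, ∀ x : ℝ, x₁ ≤ x → 2 ^ (A + 8) ≤ Real.log x ∧ 2 ≤ x ^ (η / 2) := by
    have h1 := Real.tendsto_log_atTop.eventually_ge_atTop (2 ^ (A + 8) : ℝ)
    have h2 := (tendsto_rpow_atTop (half_pos hη)).eventually_ge_atTop (2 : ℝ)
    exact Filter.eventually_atTop.1 (h1.and h2)
  refine ⟨max ((N₀ : ℝ) + 4) x₁, fun x hx M c₀ 𝒟 hD hM1 hM2 hc => ?_⟩
  have hxN : (N₀ : ℝ) + 4 ≤ x := (le_max_left _ _).trans hx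
  obtain ⟨hlx, hxη⟩ := hx₁ x ((le_max_right _ _).trans hx)
  have hN₀ : (0 : ℝ) ≤ N₀ := Nat.cast_nonneg _
  have hx4 : 4 ≤ x := by linarith
  have hx0 : 0 < x := by linarith
  obtain ⟨N, hN⟩ : ∃ N, N = ⌊x⌋₊ := ⟨_, rfl⟩
  have hNx : (N : ℝ) ≤ x := by rw [hN]; exact Nat.floor_le hx0.le
  have hxN1 : x < N + 1 := by rw [hN]; exact Nat.lt_floor_add_one x
  have hN0 : (0 : ℝ) < N := by linarith
  have hN1 : (1 : ℝ) ≤ N := by linarith
  have hNN₀ : N₀ ≤ N := by
    rw [hN]
    exact Nat.le_floor (by linarith)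
  obtain ⟨l, hl⟩ : ∃ l, l = Real.log x := ⟨_, rfl⟩
  obtain ⟨L, hL⟩ : ∃ L, L = Real.log N := ⟨_, rfl⟩
  rw [← hl] at hlx hc ⊢
  have h256 : (256 : ℝ) ≤ 2 ^ (A + 8) := by
    calc (256 : ℝ) = 2 ^ 8 := by norm_num
      _ ≤ 2 ^ (A + 8) := pow_le_pow_right₀ (by norm_num) (by omega)
  have hl256 : 256 ≤ l := by linarith
  have hLl : L ≤ l := by rw [hL, hl]; exact Real.log_le_log hN0 hNx
  have hlL : l / 2 ≤ L := by
    have h1 : x / 2 ≤ N := by linarith
    have h2 : Real.log (x / 2) ≤ L := by rw [hL]; exact Real.log_le_log (by linarith) h1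
    rw [Real.log_div hx0.ne' (by norm_num), ← hl] at h2
    have h3 := Real.log_two_lt_d9
    linarith
  have hL0 : 0 < L := by linarith
  have hl0 : 0 < l := by linarith
  -- powers of the logarithms
  have hpow : 8 * l ^ A ≤ L ^ (A + 2) := by
    have h1 : (l / 2) ^ (A + 2) ≤ L ^ (A + 2) := pow_le_pow_left₀ (by linarith) hlL _
    refine le_trans ?_ h1
    rw [div_pow, le_div_iff₀ (by positivity), pow_add l A 2]
    have h2 : (8 : ℝ) * 2 ^ (A + 2) ≤ l ^ 2 := by
      calc (8 : ℝ) * 2 ^ (A + 2) = 2 ^ (A + 5) := by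
            rw [show A + 5 = 3 + (A + 2) by ring, pow_add 2 3]; norm_num
        _ ≤ 2 ^ (A + 8) := pow_le_pow_right₀ (by norm_num) (by omega)
        _ ≤ l := hlx
        _ ≤ l ^ 2 := by nlinarith
    calc 8 * l ^ A * 2 ^ (A + 2) = l ^ A * (8 * 2 ^ (A + 2)) := by ring
      _ ≤ l ^ A * l ^ 2 := mul_le_mul_of_nonneg_left h2 (by positivity)
  have hlA : 1 ≤ l ^ A := one_le_pow₀ (by linarith)
  have hpow1 : l ^ A ≤ L ^ (A + 2) := by linarith
  have hpow8 : 8 ≤ L ^ (A + 2) := by linarith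
  -- the ranges
  have hr1 : (N : ℝ) ^ (η / 2) ≤ (b : ℝ) ^ M := by
    refine le_trans ?_ hM1
    calc (N : ℝ) ^ (η / 2) ≤ x ^ (η / 2) := Real.rpow_le_rpow hN0.le hNx (by positivity)
      _ ≤ x ^ η := Real.rpow_le_rpow_of_exponent_le (by linarith) (by linarith)
  have hr2 : (b : ℝ) ^ M ≤ (N : ℝ) ^ (1 - η / 2) := by
    refine hM2.trans ?_
    have h1 : x / 2 ≤ N := by linarith
    have hη1 : η < 1 := by
      by_contra hcon
      push Not at hcon
      have h5 : x ^ (1 - η) ≤ 1 := Real.rpow_le_one_of_one_le_of_nonpos (by linarith) (by linarith)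
      have h6 : x ^ (η / 2) ≤ x ^ η := Real.rpow_le_rpow_of_exponent_le (by linarith) (by linarith)
      linarith
    have h2 : (x / 2) ^ (1 - η / 2) ≤ (N : ℝ) ^ (1 - η / 2) := Real.rpow_le_rpow (by linarith) h1 (by linarith)
    refine le_trans ?_ h2
    rw [Real.div_rpow hx0.le (by norm_num), le_div_iff₀ (by positivity)]
    have h3 : x ^ (1 - η / 2) = x ^ (1 - η) * x ^ (η / 2) := by
      rw [← Real.rpow_add hx0]
      congr 1
      ring
    rw [h3]
    apply mul_le_mul_of_nonneg_left _ (by positivity)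
    calc (2 : ℝ) ^ (1 - η / 2) ≤ (2 : ℝ) ^ (1 : ℝ) := Real.rpow_le_rpow_of_exponent_le (by norm_num) (by linarith)
      _ = 2 := Real.rpow_one _
      _ ≤ x ^ (η / 2) := hxη
  have hr3 : (c₀ : ℝ) ≤ (b : ℝ) ^ M * Real.log N ^ (A + 2) := by
    refine hc.trans ?_
    rw [← hL]
    exact mul_le_mul_of_nonneg_left hpow1 (by positivity)
  -- the moduli that are not regular
  have hb0 : 0 < b := by omega
  have hDg : Digits b 𝒟 M = Pool.Agent.X31.CT.Dg b 𝒟 M := rfl
  obtain ⟨X, hX⟩ : ∃ X : Finset ℕ, X = (Digits b 𝒟 M).filter (fun k => 1 ≤ c₀ + k ∧ ¬ Regular ε A x (c₀ + k)) :=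
    ⟨_, rfl⟩
  rw [← hX]
  have hkey : (X.card : ℝ) ≤ (Digits b 𝒟 M).card / Real.log N ^ (A + 2) := by
    apply h0 N hNN₀ M c₀ 𝒟 hD hr1 hr2 hr3 X
    · rw [hX, ← hDg]
      exact filter_subset _ _
    · intro k hk hk1
      rw [hX, mem_filter] at hk
      obtain ⟨q, hq⟩ : ∃ q, q = c₀ + k := ⟨_, rfl⟩
      rw [← hq] at hk hk1 ⊢
      by_contra hcon
      push Not at hcon
      apply hk.2.2
      have hq0 : (0 : ℝ) < q := by exact_mod_cast hk1
      have hexc : ∀ a : ℕ, ((exceptional ε' x q a).ncard : ℝ) ≤ N / (q * L ^ (A + 2)) := by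
        intro a
        refine (exceptional_card ε' x q a).trans ?_
        rw [← hN, hL]
        exact hcon a
      refine ⟨fun a => ⟨exceptional_finite _ _ _ _, ?_⟩, ?_, ?_⟩
      · rw [← hl]
        have h1 : ((exceptional ε x q a).ncard : ℝ) ≤ (exceptional ε' x q a).ncard := by
          exact_mod_cast Set.ncard_le_ncard (exceptional_mono hεle q a) (exceptional_finite _ _ _ _)
        refine h1.trans ((hexc a).trans ?_)
        rw [div_le_div_iff₀ (by positivity) (by positivity)]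
        calc (N : ℝ) * (q * l ^ A) ≤ x * (q * L ^ (A + 2)) := by
              apply mul_le_mul hNx _ (by positivity) hx0.le
              exact mul_le_mul_of_nonneg_left hpow1 hq0.le
          _ = x * (q * L ^ (A + 2)) := rfl
      · refine (Set.finite_le_nat ⌊x⌋₊).subset fun n hn => Nat.le_floor hn.2.1
      · have hsub : few (1 / 2) x q ⊆ exceptional ε' x q 0 := by
          rintro n ⟨h1, h2, h3, h4, h5⟩
          have hn0 : 0 < n := by
            have : (0 : ℝ) < n := by linarith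
            exact_mod_cast this
          refine ⟨hn0, h2, h3, (Nat.modEq_zero_iff_dvd).2 h4, fun h6 => ?_⟩
          have h7 := h6.1
          have h8 := Pool.Agent.W93.GB.one_le_sing n
          have h9 : (n : ℝ) / Real.log n ^ 2 ≤ HL n := by
            have h10 : HL n = Pool.Agent.H560R3.GB.sing n * (n / Real.log n ^ 2) := by
              unfold Pool.Agent.H560R3.GB.HL
              ring
            rw [h10]
            have h11 : (0 : ℝ) ≤ n / Real.log n ^ 2 := by positivity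
            nlinarith
          have h12 := HL_nonneg n
          rw [abs_le] at h7
          have h13 : (1 / 2 : ℝ) * HL n ≤ g n := by nlinarith [h7.1]
          have h14 : (1 / 2 : ℝ) * (n / Real.log n ^ 2) ≤ g n := by linarith
          linarith
        have h1 : ((few (1 / 2) x q).ncard : ℝ) ≤ (exceptional ε' x q 0).ncard := by
          exact_mod_cast Set.ncard_le_ncard hsub (exceptional_finite _ _ _ _)
        refine h1.trans ((hexc 0).trans ?_)
        rw [div_le_div_iff₀ (by positivity) (by positivity)]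
        calc (N : ℝ) * (8 * q) ≤ x * (L ^ (A + 2) * q) := by
              apply mul_le_mul hNx _ (by positivity) hx0.le
              exact mul_le_mul_of_nonneg_right hpow8 hq0.le
          _ = x * (q * L ^ (A + 2)) := by ring
  refine hkey.trans ?_
  rw [← hL]
  exact div_le_div_of_nonneg_left (Nat.cast_nonneg _) (by positivity) hpow1

end Pool.Agent.Results.MP_92f640_nt.MissingDigitModuli
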