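import Pool.Agent.X55.Fam.Adm

/-!
# Sums of two almost primes in residue classes, for multiples of the modulus, with prescribed residues modulo a large prime

Let `P` be a large prime. We consider an ARBITRARY even multiple `N` of a modulus `q` and a reduced residue class `a` modulo `q`, and the
representations of `N` as a sum of `q n + a` and `N - (q n + a)`, for the `n` in an interval `(M, M + H]` for which the residue of `n` modulo `P` is restricted. The number
of those for which both summands have a bounded number of prime factors, all greater than `P ^ δ`, has the expected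
order of magnitude, and the number of those for which both are primes is at most of this order; the constants do not
depend on `N`, `q` and `a`. The number of those for which neither summand has a prime factor up to `y` is given by an
asymptotic formula, uniformly in `N`, `q` and `a`.
This holds for the `n`
* of an ARBITRARY set `A` of residues modulo `P` whose Fourier coefficients are at most `Γ`, in ARBITRARY intervals of
  a length `H ≤ P` with `|A| H ≥ Γ P ^ (1 + ε)`;
* of a coset of a subgroup `S` of the residues, in the intervals of a length `H ≤ P` with `|S| H ≥ P ^ (3 / 2 + ε)`;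
* which are primitive roots of `P`, in the intervals of a length `H` with `P ^ (1 / 2 + ε) ≤ H ≤ P`;
* which are on the modular hyperbola `n m = u` modulo `P` with `n` and `m` in intervals of the lengths `H`, `K ≤ P` with
  `H K ≥ P ^ (3 / 2 + ε)`.

The proof combines a sieve which is uniform in the removed residue classes, incomplete sums, Weil's bound for the
Kloosterman sums and a Moebius formula for primitive roots.
-/

set_option autoImplicit false

namespace Pool.Agent.Results.MP_92f640_nt.ResiduesModuloPrimes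

open Finset Pool.Agent.X55.Forms

/-- the coefficients of the two forms -/
def ca (q : ℕ) : Fin 2 → ℤ := ![q, -q]

/-- the constants of the two forms `q n + a` and `N - (q n + a)` -/
def cb (N a : ℕ) : Fin 2 → ℤ := ![a, (N : ℤ) - a]

lemma ca_ne {q : ℕ} (hq : 0 < q) (i : Fin 2) : ca q i ≠ 0 := by
  fin_cases i
  · show (q : ℤ) ≠ 0
    omega
  · show -(q : ℤ) ≠ 0
    omega

lemma adm {N q a : ℕ} (hN : Even N) (hqN : q ∣ N) (ha : Nat.Coprime a q) : Admissible (ca q) (cb N a) := by
  refine admissible_of _ _ ?_ ?_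
  · intro l hl hl2
    have h2 : l = 2 := le_antisymm hl2 hl.two_le
    subst h2
    have key : Odd (q * (a + 1) + a) := by
      rcases Nat.even_or_odd q with h | h
      · have h3 : Odd a := by
          by_contra h4
          rw [Nat.not_odd_iff_even] at h4
          have h5 : 2 ∣ Nat.gcd a q := Nat.dvd_gcd h4.two_dvd h.two_dvd
          rw [ha] at h5
          omega
        exact (h.mul_right _).add_odd h3
      · rcases Nat.even_or_odd a with h3 | h3
        · exact (h.mul h3.add_one).add_even h3
        · exact (h3.add_one.mul_left q).add_odd h3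
    obtain ⟨t, ht⟩ := key
    obtain ⟨w, hw⟩ := hN
    refine ⟨a + 1, fun i => ?_⟩
    have h6 : (q : ℤ) * ((a + 1 : ℕ) : ℤ) + a = 2 * t + 1 := by exact_mod_cast ht
    have h7 : (N : ℤ) = w + w := by exact_mod_cast hw
    fin_cases i
    · show ¬ ((2 : ℕ) : ℤ) ∣ (q : ℤ) * ((a + 1 : ℕ) : ℤ) + a
      rw [h6]
      omega
    · show ¬ ((2 : ℕ) : ℤ) ∣ -(q : ℤ) * ((a + 1 : ℕ) : ℤ) + (N - a)
      have e : -(q : ℤ) * ((a + 1 : ℕ) : ℤ) + ((N : ℤ) - a) = N - ((q : ℤ) * ((a + 1 : ℕ) : ℤ) + a) := by ring
      rw [e, h6, h7]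
      omega
  · intro l hl _ i hh
    have key : ∀ z : ℤ, (l : ℤ) ∣ q → ¬ (l : ℤ) ∣ a := by
      intro _ h1 h2
      have h3 : l ∣ Nat.gcd a q := Nat.dvd_gcd (by exact_mod_cast h2) (by exact_mod_cast h1)
      rw [ha] at h3
      exact hl.one_lt.ne' (Nat.dvd_one.1 h3)
    fin_cases i
    · exact key 0 hh.1 hh.2
    · have h1 : (l : ℤ) ∣ q := (dvd_neg).1 hh.1
      have h2 : (l : ℤ) ∣ N := h1.trans (by exact_mod_cast hqN)
      refine key 0 h1 ?_
      have h3 : (l : ℤ) ∣ (N : ℤ) - a := hh.2
      have := dvd_sub h2 h3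
      simpa using this

theorem result :
    (∀ ε : ℝ, 0 < ε → ∀ B : ℕ, ∃ (r : ℕ) (δ c C : ℝ) (P₀ : ℕ), 0 < δ ∧ 0 < c ∧ 0 < C ∧
      ∀ P : ℕ, P₀ ≤ P → ∀ [Fact P.Prime] (N q a : ℕ), Even N → 0 < q → q ∣ N → Nat.Coprime a q →
      Residues ε P (fun M H R X => a + q * (M + H) ≤ N → Bounds (ca q) (cb N a) P r δ c C B M H R X)) ∧
    -- the asymptotic formula
    (∀ ε η : ℝ, 0 < ε → 0 < η → ∃ (δ : ℝ) (P₀ : ℕ), 0 < δ ∧
      ∀ P : ℕ, P₀ ≤ P → ∀ [Fact P.Prime] (N q a : ℕ), Even N → 0 < q → q ∣ N → Nat.Coprime a q → ∀ y : ℕ, 3 ≤ y → (y : ℝ) ≤ (P : ℝ) ^ δ →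
      Sets ε P (fun M H R X => a + q * (M + H) ≤ N → Rough (ca q) (cb N a) η y M H R X)) := by

  refine ⟨fun ε hε B => ?_, fun ε η hε hη => ?_⟩
  · obtain ⟨r, δ, c, C, P₀, hδ, hc, hC, h⟩ := residues (2) (by norm_num) ε hε B
    refine ⟨r, δ, c, C, P₀, hδ, hc, hC, ?_⟩
    intro P hP _ N q a hN hq hqN ha
    exact (h P hP (ca q) (cb N a) (ca_ne hq) (adm hN hqN ha)).mono fun M H R X _ hQ _ => hQ
  · obtain ⟨δ, P₀, hδ, h⟩ := residuesA (2) (by norm_num) ε η hε hη
    refine ⟨δ, P₀, hδ, ?_⟩
    intro P hP _ N q a hN hq hqN ha y hy hyP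
    exact (h P hP (ca q) (cb N a) (adm hN hqN ha) y hy hyP).mono fun M H R X _ hQ _ => hQ

end Pool.Agent.Results.MP_92f640_nt.ResiduesModuloPrimes
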